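import Pool.Agent.H57.Yor4

set_option autoImplicit false

namespace Pool.Agent.Results.MP_cd6b71_lc.MinaddSupcof

open Pool.Agent.H57.Yor

theorem result : supcof = cof Null ∧ minadd = add Null := main

end Pool.Agent.Results.MP_cd6b71_lc.MinaddSupcof
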